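import Pool.Agent.Helper26.DA.Goals

set_option autoImplicit false

namespace Pool.Agent.Helper33.DA

open Pool.Agent.Helper26.DA Matrix

universe w

variable {R : Type w} [CommRing R] {n : ℕ}

/-- the square matrix with first row `u` and other rows `z` -/
def MM (u : Fin (n + 1) → R) (z : Fin n → Fin (n + 1) → R) :
    Matrix (Fin (n + 1)) (Fin (n + 1)) R :=
  Matrix.of (Fin.cons u z : Fin (n + 1) → Fin (n + 1) → R)

/-- signed maximal minors -/
def Del (z : Fin n → Fin (n + 1) → R) (k : Fin (n + 1)) : R :=
  (-1) ^ (k : ℕ) * (Matrix.of fun i j : Fin n => z i (k.succAbove j)).det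

omit [CommRing R] in
lemma MM_zero (u : Fin (n + 1) → R) (z : Fin n → Fin (n + 1) → R) (k : Fin (n + 1)) :
    MM u z 0 k = u k := rfl

omit [CommRing R] in
lemma MM_succ (u : Fin (n + 1) → R) (z : Fin n → Fin (n + 1) → R) (i : Fin n) (k : Fin (n + 1)) :
    MM u z i.succ k = z i k := rfl

lemma det_MM (u : Fin (n + 1) → R) (z : Fin n → Fin (n + 1) → R) :
    (MM u z).det = ∑ k, u k * Del z k := by
  rw [Matrix.det_succ_row_zero]
  refine Finset.sum_congr rfl fun k _ => ?_
  rw [MM_zero]
  unfold Del
  have : (MM u z).submatrix Fin.succ k.succAbove =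
      Matrix.of fun i j : Fin n => z i (k.succAbove j) := by
    ext i j
    rfl
  rw [this]
  ring

lemma det_MM_single (z : Fin n → Fin (n + 1) → R) (k : Fin (n + 1)) :
    (MM (Pi.single k 1) z).det = Del z k := by
  rw [det_MM]
  rw [Finset.sum_eq_single k]
  · simp
  · intro b _ hb
    simp [Pi.single_eq_of_ne hb]
  · intro h; exact absurd (Finset.mem_univ k) h

lemma cramer_id (f : Fin (n + 1) → R) (z : Fin n → Fin (n + 1) → R)
    (hz : ∀ i, ∑ k, z i k * f k = 0) (u : Fin (n + 1) → R) (i : Fin (n + 1)) :
    (∑ k, u k * Del z k) * f i = Del z i * ∑ k, u k * f k := by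
  have h1 : (MM u z) *ᵥ f = Pi.single 0 (∑ k, u k * f k) := by
    funext a
    refine Fin.cases ?_ (fun b => ?_) a
    · simp [Matrix.mulVec, dotProduct, MM_zero]
    · rw [Pi.single_eq_of_ne (Fin.succ_ne_zero b)]
      simp only [Matrix.mulVec, dotProduct, MM_succ]
      exact hz b
  have h2 : (MM u z).adjugate *ᵥ ((MM u z) *ᵥ f) = (MM u z).det • f := by
    rw [Matrix.mulVec_mulVec, Matrix.adjugate_mul, Matrix.smul_mulVec, Matrix.one_mulVec]
  have h3 := congrFun h2 i
  rw [h1, Matrix.mulVec_single] at h3
  simp only [Pi.smul_apply, Matrix.col_apply, smul_eq_mul, MulOpposite.smul_eq_mul_unop,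
    MulOpposite.unop_op] at h3
  rw [← det_MM]
  rw [← h3, Matrix.adjugate_apply]
  congr 1
  have : (MM u z).updateRow 0 (Pi.single i 1) = MM (Pi.single i 1) z := by
    ext a b
    refine Fin.cases ?_ (fun c => ?_) a
    · simp [MM_zero]
    · rw [Matrix.updateRow_ne (Fin.succ_ne_zero c), MM_succ, MM_succ]
  rw [this, det_MM_single]

/-- `Δ` is a multiple of `f` -/
lemma exists_factor [IsDomain R] [UniqueFactorizationMonoid R] (f : Fin (n + 1) → R)
    (z : Fin n → Fin (n + 1) → R) (hf : f ≠ 0) (hli : LinearIndependent R z)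
    (hz : ∀ i, ∑ k, z i k * f k = 0) (hp : ∀ π : R, Prime π → ∃ k, ¬ π ∣ f k) :
    ∃ s : R, s ≠ 0 ∧ ∀ k, Del z k = s * f k := by
  obtain ⟨i0, hi0⟩ : ∃ i, f i ≠ 0 := by
    by_contra h
    push Not at h
    exact hf (funext h)
  have hrel : ∀ j, f i0 * Del z j = f j * Del z i0 := by
    intro j
    have h := cramer_id f z hz (Pi.single j 1) i0
    have e1 : ∑ k, (Pi.single j 1 : Fin (n + 1) → R) k * Del z k = Del z j := by
      rw [← det_MM, det_MM_single]
    have e2 : ∑ k, (Pi.single j 1 : Fin (n + 1) → R) k * f k = f j := by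
      rw [Finset.sum_eq_single j]
      · simp
      · intro b _ hb
        simp [Pi.single_eq_of_ne hb]
      · intro h; exact absurd (Finset.mem_univ j) h
    rw [e1, e2] at h
    linear_combination h
  have hD : Del z i0 ≠ 0 := by
    rw [← det_MM_single]
    intro h0
    rw [← Matrix.exists_vecMul_eq_zero_iff] at h0
    obtain ⟨v, hv, hv0⟩ := h0
    have h1 : ∀ k, v 0 * (Pi.single i0 1 : Fin (n + 1) → R) k + ∑ i : Fin n, v i.succ * z i k = 0 := by
      intro k
      have := congrFun hv0 k
      simp only [Matrix.vecMul, dotProduct, Fin.sum_univ_succ, MM_zero, MM_succ,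
        Pi.zero_apply] at this
      exact this
    have h2 : v 0 * f i0 = 0 := by
      have h3 : ∑ k, (v 0 * (Pi.single i0 1 : Fin (n + 1) → R) k +
          ∑ i : Fin n, v i.succ * z i k) * f k = 0 :=
        Finset.sum_eq_zero fun k _ => by rw [h1 k, zero_mul]
      have h4 : ∑ k, (v 0 * (Pi.single i0 1 : Fin (n + 1) → R) k +
          ∑ i : Fin n, v i.succ * z i k) * f k =
          v 0 * f i0 + ∑ i : Fin n, v i.succ * ∑ k, z i k * f k := by
        simp only [add_mul, Finset.sum_add_distrib, Finset.sum_mul, Finset.mul_sum]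
        congr 1
        · rw [Finset.sum_eq_single i0]
          · simp
          · intro b _ hb
            simp [Pi.single_eq_of_ne hb]
          · intro h; exact absurd (Finset.mem_univ i0) h
        · rw [Finset.sum_comm]
          refine Finset.sum_congr rfl fun i _ => Finset.sum_congr rfl fun k _ => ?_
          ring
      rw [h4] at h3
      simpa [hz] using h3
    have h5 : v 0 = 0 := (mul_eq_zero.mp h2).resolve_right hi0
    have h6 : ∑ i : Fin n, v i.succ • z i = 0 := by
      funext k
      have := h1 k
      rw [h5, zero_mul, zero_add] at this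
      simpa [Finset.sum_apply] using this
    have h7 := Fintype.linearIndependent_iff.mp hli (fun i => v i.succ) h6
    apply hv
    funext a
    refine Fin.cases h5 (fun b => h7 b) a
  obtain ⟨a, b, g, hab, ha, hb⟩ :=
    UniqueFactorizationMonoid.exists_reduced_factors (f i0) hi0 (Del z i0)
  have hg : g ≠ 0 := by
    rintro rfl
    rw [zero_mul] at ha
    exact hi0 ha.symm
  have hrel2 : ∀ j, a * Del z j = f j * b := by
    intro j
    have h := hrel j
    rw [← ha, ← hb] at h
    apply mul_left_cancel₀ hg
    linear_combination h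
  have hdiv : ∀ j, a ∣ f j := fun j => hab.dvd_of_dvd_mul_right ⟨Del z j, (hrel2 j).symm⟩
  have ha0 : a ≠ 0 := by
    rintro rfl
    rw [mul_zero] at ha
    exact hi0 ha.symm
  have hau : IsUnit a := by
    by_contra hnu
    obtain ⟨π, hπ, hπa⟩ := WfDvdMonoid.exists_irreducible_factor hnu ha0
    obtain ⟨k, hk⟩ := hp π (UniqueFactorizationMonoid.irreducible_iff_prime.mp hπ)
    exact hk (hπa.trans (hdiv k))
  obtain ⟨c, hc⟩ := hau.exists_left_inv
  have hall : ∀ k, Del z k = (c * b) * f k := by
    intro k
    have h := hrel2 k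
    linear_combination c * h - (Del z k) * hc
  refine ⟨c * b, ?_, hall⟩
  intro h0
  apply hD
  rw [hall i0, h0, zero_mul]

/-- over a domain: if all maximal minors vanish the rows are dependent -/
lemma dep_of_minors {S : Type w} [CommRing S] [IsDomain S] (z : Fin n → Fin (n + 1) → S)
    (h : ∀ k, Del z k = 0) : ∃ v : Fin n → S, v ≠ 0 ∧ ∀ k, ∑ i, v i * z i k = 0 := by
  have h1 : ∀ k : Fin (n + 1), ∃ v : Fin (n + 1) → S, v ≠ 0 ∧ v ᵥ* MM (Pi.single k 1) z = 0 := by
    intro k
    rw [Matrix.exists_vecMul_eq_zero_iff, det_MM_single]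
    exact h k
  choose v hv hv0 using h1
  have h2 : ∀ a k, v a 0 * (Pi.single a 1 : Fin (n + 1) → S) k +
      ∑ i : Fin n, v a i.succ * z i k = 0 := by
    intro a k
    have := congrFun (hv0 a) k
    simp only [Matrix.vecMul, dotProduct, Fin.sum_univ_succ, MM_zero, MM_succ,
      Pi.zero_apply] at this
    exact this
  by_cases h3 : ∃ a, v a 0 = 0
  · obtain ⟨a, ha⟩ := h3
    refine ⟨fun i => v a i.succ, ?_, fun k => ?_⟩
    · intro h4
      apply hv a
      funext b
      exact Fin.cases ha (fun c => congrFun h4 c) b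
    · have := h2 a k
      rwa [ha, zero_mul, zero_add] at this
  · exfalso
    push Not at h3
    have hli : LinearIndependent S (fun a : Fin (n + 1) =>
        (v a 0 • (Pi.single a 1 : Fin (n + 1) → S))) := by
      rw [Fintype.linearIndependent_iff]
      intro g hg a
      have := congrFun hg a
      simp only [Finset.sum_apply, Pi.smul_apply, smul_eq_mul, Pi.zero_apply] at this
      rw [Finset.sum_eq_single a] at this
      · simp only [Pi.single_eq_same, mul_one] at this
        exact (mul_eq_zero.mp this).resolve_right (h3 a)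
      · intro b _ hb
        rw [Pi.single_eq_of_ne hb.symm]
        simp
      · intro h; exact absurd (Finset.mem_univ a) h
    have hsub : Set.range (fun a : Fin (n + 1) => (v a 0 • (Pi.single a 1 : Fin (n + 1) → S))) ≤
        (Submodule.span S (Set.range z) : Set (Fin (n + 1) → S)) := by
      rintro _ ⟨a, rfl⟩
      have e : (v a 0 • (Pi.single a 1 : Fin (n + 1) → S)) = ∑ i : Fin n, (-(v a i.succ)) • z i := by
        funext k
        have := h2 a k
        simp only [Pi.smul_apply, smul_eq_mul, Finset.sum_apply, neg_mul, Finset.sum_neg_distrib]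
        linear_combination this
      show (v a 0 • (Pi.single a 1 : Fin (n + 1) → S)) ∈ Submodule.span S (Set.range z)
      rw [e]
      exact Submodule.sum_mem _ fun i _ => Submodule.smul_mem _ _
        (Submodule.subset_span ⟨i, rfl⟩)
    classical
    have hc := linearIndependent_le_span' _ hli (Set.range z) hsub
    have h4 : Fintype.card (Set.range z) ≤ n := by
      have := Fintype.card_range_le z
      simpa using this
    have h5 : ((n + 1 : ℕ) : Cardinal) ≤ (n : ℕ) := by
      have h6 : Cardinal.mk (Fin (n + 1)) = ((n + 1 : ℕ) : Cardinal) := by simp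
      rw [← h6]
      exact hc.trans (by exact_mod_cast h4)
    have h7 : n + 1 ≤ n := by exact_mod_cast h5
    omega

theorem gMIN : G_MIN.{w} := by
  intro R _ _ _ n f z hf hli hspan hp k
  have hz : ∀ i, ∑ k, z i k * f k = 0 := fun i =>
    (hspan (z i)).mpr (Submodule.subset_span ⟨i, rfl⟩)
  obtain ⟨s, hs, hall⟩ := exists_factor f z hf hli hz hp
  have hsu : IsUnit s := by
    by_contra hnu
    obtain ⟨π, hπ, hπs⟩ := WfDvdMonoid.exists_irreducible_factor hnu hs
    have hπp : Prime π := UniqueFactorizationMonoid.irreducible_iff_prime.mp hπ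
    have hI : (Ideal.span {π} : Ideal R).IsPrime := (Ideal.span_singleton_prime hπp.ne_zero).mpr hπp
    let q := Ideal.Quotient.mk (Ideal.span {π} : Ideal R)
    have hq0 : ∀ x, q x = 0 ↔ π ∣ x := by
      intro x
      rw [Ideal.Quotient.eq_zero_iff_mem, Ideal.mem_span_singleton]
    have hdel : ∀ k, Del (fun i k => q (z i k)) k = 0 := by
      intro k
      have e : Del (fun i k => q (z i k)) k = q (Del z k) := by
        unfold Del
        rw [map_mul, map_pow, map_neg, map_one, RingHom.map_det]
        rfl
      rw [e, hq0, hall k]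
      exact hπs.mul_right _
    obtain ⟨v, hv, hv0⟩ := dep_of_minors (fun i k => q (z i k)) hdel
    have hlift : ∀ i, ∃ a : R, q a = v i := fun i => Ideal.Quotient.mk_surjective (v i)
    choose a ha using hlift
    have h1 : ∀ k, π ∣ ∑ i, a i * z i k := by
      intro k
      rw [← hq0, map_sum]
      simp only [map_mul, ha]
      exact hv0 k
    choose w hw using h1
    have h2 : ∑ k, w k * f k = 0 := by
      have h3 : π * ∑ k, w k * f k = 0 := by
        rw [Finset.mul_sum]
        have : ∀ k, π * (w k * f k) = ∑ i, a i * (z i k * f k) := by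
          intro k
          rw [← mul_assoc, ← hw k, Finset.sum_mul]
          exact Finset.sum_congr rfl fun i _ => by ring
        rw [Finset.sum_congr rfl fun k _ => this k, Finset.sum_comm]
        refine Finset.sum_eq_zero fun i _ => ?_
        rw [← Finset.mul_sum, hz i, mul_zero]
      exact (mul_eq_zero.mp h3).resolve_left hπp.ne_zero
    have h4 := (hspan w).mp h2
    rw [Submodule.mem_span_range_iff_exists_fun] at h4
    obtain ⟨b, hb⟩ := h4
    have h5 : ∑ i, (a i - π * b i) • z i = 0 := by
      funext k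
      have h6 := congrFun hb k
      have h7 := hw k
      simp only [Finset.sum_apply, Pi.smul_apply, smul_eq_mul, Pi.zero_apply] at h6 ⊢
      simp only [sub_mul, Finset.sum_sub_distrib]
      rw [h7, ← h6, Finset.mul_sum]
      rw [sub_eq_zero]
      exact Finset.sum_congr rfl fun i _ => by ring
    have h8 := Fintype.linearIndependent_iff.mp hli _ h5
    apply hv
    funext i
    rw [← ha i, Pi.zero_apply, hq0]
    exact ⟨b i, by linear_combination h8 i⟩
  obtain ⟨c, hc⟩ := hsu.exists_left_inv
  have hk : f k = (c * (-1) ^ (k : ℕ)) * (Matrix.of fun i j : Fin n => z i (k.succAbove j)).det := by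
    have h := hall k
    unfold Del at h
    linear_combination (-f k) * hc - c * h
  rw [hk]
  refine Ideal.mul_mem_left _ _ (Ideal.subset_span ?_)
  exact ⟨z, fun j => k.succAbove j, hz, rfl⟩

end Pool.Agent.Helper33.DA
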